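import Mathlib

set_option autoImplicit false

/-! Graded machinery for the splitting of the left kernel. -/

namespace Pool.Agent.H410R3.NORE

open TensorProduct

/-- a bundled vector space -/
structure Sp (k : Type) [Field k] where
  X : Type
  [ac : AddCommGroup X]
  [md : Module k X]

attribute [instance] Sp.ac Sp.md

section

variable (k : Type) [Field k] (R : Type) [Ring R] [Algebra k R]

/-- the data -/
structure Dat (m n : ℕ) (A : Matrix (Fin m) (Fin n) R) where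
  L : Type
  [aL : AddCommGroup L]
  [mL : Module k L]
  N : Type
  [aN : AddCommGroup N]
  [mN : Module k N]
  V : Type
  [aV : AddCommGroup V]
  [mV : Module k V]
  nr : N →ₗ[k] R →ₗ[k] N
  pr : N →ₗ[k] L →ₗ[k] V
  la : R →ₗ[k] L →ₗ[k] L
  nq : Fin m → N
  el : Fin m → L
  sN : Fin m → N →ₗ[k] R
  sq : Fin m → V →ₗ[k] L
  cl : (Fin m → N) →ₗ[k] V
  cL : (Fin m → R) →ₗ[k] L
  sV : V →ₗ[k] (Fin m → N)
  sL : L →ₗ[k] (Fin m → R)
  nr_mul : ∀ n r r', nr n (r * r') = nr (nr n r) r'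
  la_mul : ∀ r r' x, la (r * r') x = la r (la r' x)
  la_one : ∀ x, la 1 x = x
  pr_la : ∀ n r x, pr n (la r x) = pr (nr n r) x
  cl_sV : ∀ v, cl (sV v) = v
  cL_sL : ∀ x, cL (sL x) = x
  cl_el : ∀ ν : Fin m → N, ∑ q, pr (ν q) (el q) = cl ν
  cL_el : ∀ ρ : Fin m → R, ∑ q, la (ρ q) (el q) = cL ρ
  nq_sN : ∀ n, ∑ q, nr (nq q) (sN q n) = n
  cl_nq : cl nq = 0
  pr_sq : ∀ v, ∑ q, pr (nq q) (sq q v) = v
  endo : ∀ ν : Fin m → N, cl ν = 0 → ∃ (g : N →ₗ[k] N) (gV : V →ₗ[k] V),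
    (∀ q, g (nq q) = ν q) ∧ (∀ n r, g (nr n r) = nr (g n) r) ∧ ∀ n x, gV (pr n x) = pr (g n) x
  zed : ∀ z : Fin m → R, cL z = 0 → ∃ (zb : N →ₗ[k] R) (zV : V →ₗ[k] L),
    (∀ q, zb (nq q) = z q) ∧ (∀ n r, zb (nr n r) = zb n * r) ∧ ∀ n x, zV (pr n x) = la (zb n) x
  inj_nr : ∀ n r, n ≠ 0 → nr n r = 0 → r = 0
  inj_pr : ∀ n x, n ≠ 0 → pr n x = 0 → x = 0
  inj_la : ∀ r x, r ≠ 0 → la r x = 0 → x = 0
  lam : Fin n → L →ₗ[k] R
  lam_la : ∀ j r x, lam j (la r x) = r * lam j x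
  lam_inj : ∀ x, (∀ j, lam j x = 0) → x = 0
  kerA : ∀ ν : Fin m → N, (∀ j, ∑ q, nr (ν q) (A q j) = 0) → cl ν = 0
  kerAR : ∀ ρ : Fin m → R, (∀ j, ∑ q, ρ q * A q j = 0) → cL ρ = 0
  nqA : ∀ j, ∑ q, nr (nq q) (A q j) = 0

attribute [instance] Dat.aL Dat.mL Dat.aN Dat.mN Dat.aV Dat.mV

end

/-- the instance to be constructed -/
def TaskInst (k : Type) [Field k] : Prop :=
  ∀ (R : Type) [Ring R] [Algebra k R] [IsDomain R] (m n : ℕ) (A : Matrix (Fin m) (Fin n) R),
    Nonempty (Dat k R m n A)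

variable {k : Type} [Field k] {R : Type} [Ring R] [Algebra k R] {m n : ℕ}
  {A : Matrix (Fin m) (Fin n) R} (D : Dat k R m n A)

/-- the pieces of `T` -/
def TS : ℕ → Sp k
  | 0 => ⟨D.N⟩
  | l + 1 => ⟨D.V ⊗[k] (TS l).X⟩

/-- the pieces of `M` -/
def MS : ℕ → Sp k
  | 0 => ⟨R⟩
  | l + 1 => ⟨D.L ⊗[k] (TS D l).X⟩

abbrev TT (l : ℕ) : Type := (TS D l).X
abbrev MM (l : ℕ) : Type := (MS D l).X

/-- the action of `n` -/
noncomputable def hat : ∀ d : ℕ, D.N →ₗ[k] MM D d →ₗ[k] TT D d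
  | 0 => D.nr
  | d + 1 => (LinearMap.rTensorHom (TT D d)).comp D.pr

/-- the action of `R` -/
noncomputable def act : ∀ d : ℕ, R →ₗ[k] MM D d →ₗ[k] MM D d
  | 0 => LinearMap.mul k R
  | d + 1 => (LinearMap.rTensorHom (TT D d)).comp D.la

/-- degree preserving section -/
noncomputable def s0 (q : Fin m) : ∀ d : ℕ, TT D d →ₗ[k] MM D d
  | 0 => D.sN q
  | d + 1 => LinearMap.rTensor (TT D d) (D.sq q)

/-- degree raising part -/
noncomputable def s1 (q : Fin m) (d : ℕ) : TT D d →ₗ[k] MM D (d + 1) :=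
  TensorProduct.mk k D.L (TT D d) (D.el q)

abbrev PM : Type := ∀ d, MM D d
abbrev PT : Type := ∀ d, TT D d

/-- the operators `n` -/
noncomputable def Hat : D.N →ₗ[k] PM D →ₗ[k] PT D :=
  LinearMap.mk₂ k (fun n w d => hat D d n (w d))
    (fun n n' w => by funext d; simp)
    (fun c n w => by funext d; simp)
    (fun n w w' => by funext d; simp)
    (fun c n w => by funext d; simp)

/-- the operators `r` -/
noncomputable def Act : R →ₗ[k] PM D →ₗ[k] PM D :=
  LinearMap.mk₂ k (fun n w d => act D d n (w d))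
    (fun n n' w => by funext d; simp)
    (fun c n w => by funext d; simp)
    (fun n w w' => by funext d; simp)
    (fun c n w => by funext d; simp)

/-- the coordinates of `sigma q t` -/
noncomputable def sg (q : Fin m) (t : PT D) : ∀ d, MM D d
  | 0 => s0 D q 0 (t 0)
  | d + 1 => s0 D q (d + 1) (t (d + 1)) + s1 D q d (t d)

/-- the operators `sigma q` -/
noncomputable def Sg (q : Fin m) : PT D →ₗ[k] PM D where
  toFun := sg D q
  map_add' t t' := by
    funext d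
    cases d with
    | zero => simp [sg]
    | succ d => simp [sg]; abel
  map_smul' c t := by
    funext d
    cases d with
    | zero => simp [sg]
    | succ d => simp [sg]

theorem Hat_apply (n : D.N) (w : PM D) (d : ℕ) : Hat D n w d = hat D d n (w d) := rfl
theorem Act_apply (r : R) (w : PM D) (d : ℕ) : Act D r w d = act D d r (w d) := rfl
theorem Sg_zero (q : Fin m) (t : PT D) : Sg D q t 0 = s0 D q 0 (t 0) := rfl
theorem Sg_succ (q : Fin m) (t : PT D) (d : ℕ) :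
    Sg D q t (d + 1) = s0 D q (d + 1) (t (d + 1)) + s1 D q d (t d) := rfl

/-- `nu sigma` -/
noncomputable def NS (ν : Fin m → D.N) : PT D →ₗ[k] PT D := ∑ q, (Hat D (ν q)).comp (Sg D q)

/-- `rho sigma` -/
noncomputable def RS (ρ : Fin m → R) : PT D →ₗ[k] PM D := ∑ q, (Act D (ρ q)).comp (Sg D q)

theorem NS_add (ν ν' : Fin m → D.N) : NS D (ν + ν') = NS D ν + NS D ν' := by
  simp [NS, LinearMap.add_comp, Finset.sum_add_distrib]

theorem NS_smul (c : k) (ν : Fin m → D.N) : NS D (c • ν) = c • NS D ν := by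
  simp [NS, LinearMap.smul_comp, Finset.smul_sum]

theorem RS_add (ν ν' : Fin m → R) : RS D (ν + ν') = RS D ν + RS D ν' := by
  simp [RS, LinearMap.add_comp, Finset.sum_add_distrib]

theorem RS_smul (c : k) (ν : Fin m → R) : RS D (c • ν) = c • RS D ν := by
  simp [RS, LinearMap.smul_comp, Finset.smul_sum]

/-- iterated operators to `T` -/
noncomputable def Th : ∀ l : ℕ, TT D l →ₗ[k] (PM D →ₗ[k] PT D)
  | 0 => Hat D
  | l + 1 => TensorProduct.lift (LinearMap.mk₂ k (fun v τ => (NS D (D.sV v)).comp (Th l τ))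
      (fun v v' τ => by rw [map_add, NS_add, LinearMap.add_comp])
      (fun c v τ => by rw [map_smul, NS_smul, LinearMap.smul_comp])
      (fun v τ τ' => by rw [map_add, LinearMap.comp_add])
      (fun c v τ => by rw [map_smul, LinearMap.comp_smul]))

/-- the normal form operators -/
noncomputable def Ph : ∀ l : ℕ, MM D l →ₗ[k] (PM D →ₗ[k] PM D)
  | 0 => Act D
  | l + 1 => TensorProduct.lift (LinearMap.mk₂ k (fun v τ => (RS D (D.sL v)).comp (Th D l τ))
      (fun v v' τ => by rw [map_add, RS_add, LinearMap.add_comp])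
      (fun c v τ => by rw [map_smul, RS_smul, LinearMap.smul_comp])
      (fun v τ τ' => by rw [map_add, LinearMap.comp_add])
      (fun c v τ => by rw [map_smul, LinearMap.comp_smul]))

theorem Th_zero (n : D.N) : Th D 0 n = Hat D n := rfl
theorem Th_succ (l : ℕ) (v : D.V) (τ : TT D l) :
    Th D (l + 1) (v ⊗ₜ[k] τ : D.V ⊗[k] TT D l) = (NS D (D.sV v)).comp (Th D l τ) := rfl
theorem Ph_zero (r : R) : Ph D 0 r = Act D r := rfl
theorem Ph_succ (l : ℕ) (x : D.L) (τ : TT D l) :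
    Ph D (l + 1) (x ⊗ₜ[k] τ : D.L ⊗[k] TT D l) = (RS D (D.sL x)).comp (Th D l τ) := rfl

end Pool.Agent.H410R3.NORE
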