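import Pool.Agent.H410R3.NORE.G1

set_option autoImplicit false

/-! Leading terms and closure. -/

namespace Pool.Agent.H410R3.NORE

open TensorProduct

variable {k : Type} [Field k] {R : Type} [Ring R] [Algebra k R] {m n : ℕ}
  {A : Matrix (Fin m) (Fin n) R} (D : Dat k R m n A)

/-- star map on `T` -/
noncomputable def st (d : ℕ) (w : MM D d) : ∀ l : ℕ, TT D l →ₗ[k] TT D (d + l)
  | 0 => (hat D d).flip w
  | l + 1 => LinearMap.lTensor D.V (st d w l)

/-- star map on `M` -/
noncomputable def stM (d : ℕ) (w : MM D d) : ∀ l : ℕ, MM D l →ₗ[k] MM D (d + l)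
  | 0 => (act D d).flip w
  | l + 1 => LinearMap.lTensor D.L (st D d w l)

theorem hat_inj (d : ℕ) (w : MM D d) (hw : w ≠ 0) (x : D.N) (h : hat D d x w = 0) : x = 0 := by
  by_contra hx
  cases d with
  | zero => exact hw (D.inj_nr x w hx h)
  | succ d =>
    have hinj : Function.Injective (D.pr x) := by
      rw [injective_iff_map_eq_zero]
      intro a ha
      exact D.inj_pr x a hx ha
    have h2 := Module.Flat.rTensor_preserves_injective_linearMap (M := TT D d) (D.pr x) hinj
    exact hw (h2 (h.trans (LinearMap.map_zero (LinearMap.rTensor (TT D d) (D.pr x))).symm))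

theorem act_inj (d : ℕ) (w : MM D d) (hw : w ≠ 0) [IsDomain R] (x : R) (h : act D d x w = 0) :
    x = 0 := by
  by_contra hx
  cases d with
  | zero =>
    have h' : x * (show R from w) = 0 := h
    rcases mul_eq_zero.1 h' with h1 | h1
    · exact hx h1
    · exact hw h1
  | succ d =>
    have hinj : Function.Injective (D.la x) := by
      rw [injective_iff_map_eq_zero]
      intro a ha
      exact D.inj_la x a hx ha
    have h2 := Module.Flat.rTensor_preserves_injective_linearMap (M := TT D d) (D.la x) hinj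
    exact hw (h2 (h.trans (LinearMap.map_zero (LinearMap.rTensor (TT D d) (D.la x))).symm))

theorem st_inj (d : ℕ) (w : MM D d) (hw : w ≠ 0) (l : ℕ) : Function.Injective (st D d w l) := by
  induction l with
  | zero =>
    rw [injective_iff_map_eq_zero]
    intro a ha
    exact hat_inj D d w hw a ha
  | succ l ih => exact Module.Flat.lTensor_preserves_injective_linearMap (M := D.V) (st D d w l) ih

theorem stM_inj [IsDomain R] (d : ℕ) (w : MM D d) (hw : w ≠ 0) (l : ℕ) :
    Function.Injective (stM D d w l) := by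
  cases l with
  | zero =>
    rw [injective_iff_map_eq_zero]
    intro a ha
    exact act_inj D d w hw a ha
  | succ l =>
    exact Module.Flat.lTensor_preserves_injective_linearMap (M := D.L) (st D d w l)
      (st_inj D d w hw l)

theorem TT_ind (l : ℕ) (P : TT D (l + 1) → Prop) (h0 : P 0)
    (ht : ∀ (v : D.V) (τ : TT D l), P (v ⊗ₜ[k] τ : D.V ⊗[k] TT D l))
    (ha : ∀ a b : TT D (l + 1), P a → P b → P (a + b)) : ∀ x, P x :=
  fun x => TensorProduct.induction_on (motive := P) x h0 ht ha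

theorem MM_ind (l : ℕ) (P : MM D (l + 1) → Prop) (h0 : P 0)
    (ht : ∀ (v : D.L) (τ : TT D l), P (v ⊗ₜ[k] τ : D.L ⊗[k] TT D l))
    (ha : ∀ a b : MM D (l + 1), P a → P b → P (a + b)) : ∀ x, P x :=
  fun x => TensorProduct.induction_on (motive := P) x h0 ht ha

theorem NS_succ (ν : Fin m → D.N) (t : PT D) (d : ℕ) (h : t (d + 1) = 0) :
    NS D ν t (d + 1) = (D.cl ν) ⊗ₜ[k] (t d) := by
  have h1 : NS D ν t (d + 1) = ∑ q, (D.pr (ν q) (D.el q)) ⊗ₜ[k] (t d) := by
    simp only [NS, LinearMap.sum_apply, LinearMap.comp_apply, Finset.sum_apply, Hat_apply]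
    refine Finset.sum_congr rfl (fun q _ => ?_)
    rw [Sg_succ, h, map_zero, zero_add]
    rfl
  rw [h1, ← TensorProduct.sum_tmul, D.cl_el]

theorem RS_succ (ν : Fin m → R) (t : PT D) (d : ℕ) (h : t (d + 1) = 0) :
    RS D ν t (d + 1) = (D.cL ν) ⊗ₜ[k] (t d) := by
  have h1 : RS D ν t (d + 1) = ∑ q, (D.la (ν q) (D.el q)) ⊗ₜ[k] (t d) := by
    simp only [RS, LinearMap.sum_apply, LinearMap.comp_apply, Finset.sum_apply, Act_apply]
    refine Finset.sum_congr rfl (fun q _ => ?_)
    rw [Sg_succ, h, map_zero, zero_add]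
    rfl
  rw [h1, ← TensorProduct.sum_tmul, D.cL_el]

theorem Th_lead (d : ℕ) (w : PM D) (hw : ∀ d', d < d' → w d' = 0) (l : ℕ) :
    ∀ τ : TT D l, (Th D l τ w) (d + l) = st D d (w d) l τ ∧
      ∀ d', d + l < d' → Th D l τ w d' = 0 := by
  induction l with
  | zero =>
    intro τ
    refine ⟨rfl, fun d' hd' => ?_⟩
    show hat D d' τ (w d') = 0
    rw [hw d' hd', map_zero]
  | succ l ih =>
    refine TT_ind D l _ ?_ ?_ ?_
    · refine ⟨?_, fun d' hd' => ?_⟩
      · rw [map_zero, map_zero]; rfl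
      · rw [map_zero]; rfl
    · intro v τ
      obtain ⟨h1, h2⟩ := ih τ
      refine ⟨?_, fun d' hd' => ?_⟩
      · show NS D (D.sV v) (Th D l τ w) (d + l + 1) = v ⊗ₜ[k] st D d (w d) l τ
        rw [NS_succ D _ _ _ (h2 _ (by omega)), h1, D.cl_sV]
      · show NS D (D.sV v) (Th D l τ w) d' = 0
        obtain ⟨e, rfl⟩ : ∃ e, d' = e + 1 := ⟨d' - 1, by omega⟩
        rw [NS_succ D _ _ _ (h2 _ (by omega)), h2 e (by omega), TensorProduct.tmul_zero]; rfl
    · rintro a b ⟨ha1, ha2⟩ ⟨hb1, hb2⟩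
      refine ⟨?_, fun d' hd' => ?_⟩
      · rw [map_add, map_add, ← ha1, ← hb1]; rfl
      · rw [map_add, LinearMap.add_apply, Pi.add_apply, ha2 d' hd', hb2 d' hd', add_zero]

theorem Ph_lead (d : ℕ) (w : PM D) (hw : ∀ d', d < d' → w d' = 0) (l : ℕ) :
    ∀ τ : MM D l, (Ph D l τ w) (d + l) = stM D d (w d) l τ ∧
      ∀ d', d + l < d' → Ph D l τ w d' = 0 := by
  cases l with
  | zero =>
    intro τ
    refine ⟨rfl, fun d' hd' => ?_⟩
    show act D d' τ (w d') = 0
    rw [hw d' hd', map_zero]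
  | succ l =>
    refine MM_ind D l _ ?_ ?_ ?_
    · refine ⟨?_, fun d' hd' => ?_⟩
      · rw [map_zero, map_zero]; rfl
      · rw [map_zero]; rfl
    · intro v τ
      obtain ⟨h1, h2⟩ := Th_lead D d w hw l τ
      refine ⟨?_, fun d' hd' => ?_⟩
      · show RS D (D.sL v) (Th D l τ w) (d + l + 1) = v ⊗ₜ[k] st D d (w d) l τ
        rw [RS_succ D _ _ _ (h2 _ (by omega)), h1, D.cL_sL]
      · show RS D (D.sL v) (Th D l τ w) d' = 0
        obtain ⟨e, rfl⟩ : ∃ e, d' = e + 1 := ⟨d' - 1, by omega⟩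
        rw [RS_succ D _ _ _ (h2 _ (by omega)), h2 e (by omega), TensorProduct.tmul_zero]; rfl
    · rintro a b ⟨ha1, ha2⟩ ⟨hb1, hb2⟩
      refine ⟨?_, fun d' hd' => ?_⟩
      · rw [map_add, map_add, ← ha1, ← hb1]; rfl
      · rw [map_add, LinearMap.add_apply, Pi.add_apply, ha2 d' hd', hb2 d' hd', add_zero]

/-- all normal forms -/
noncomputable def PhT : (Π₀ l, MM D l) →ₗ[k] (PM D →ₗ[k] PM D) := DFinsupp.lsum k (Ph D)

/-- all normal forms to `T` -/
noncomputable def ThT : (Π₀ l, TT D l) →ₗ[k] (PM D →ₗ[k] PT D) := DFinsupp.lsum k (Th D)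

open Classical in
theorem PhT_lead [IsDomain R] (d : ℕ) (w : PM D) (hw : ∀ d', d < d' → w d' = 0) (hd : w d ≠ 0)
    (x : Π₀ l, MM D l) (hx : x ≠ 0) :
    ∃ e, PhT D x w e ≠ 0 ∧ ∀ d', e < d' → PhT D x w d' = 0 := by
  have hne : x.support.Nonempty := by
    rw [Finset.nonempty_iff_ne_empty]
    intro h
    exact hx (DFinsupp.support_eq_empty.1 h)
  obtain ⟨L, hL, hmax⟩ := x.support.exists_max_image id hne
  have hval : ∀ e, PhT D x w e = ∑ l ∈ x.support, Ph D l (x l) w e := by
    intro e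
    have : PhT D x = ∑ l ∈ x.support, Ph D l (x l) := by
      rw [PhT, DFinsupp.lsum_apply_apply, DFinsupp.sumAddHom_apply, DFinsupp.sum]
      rfl
    rw [this, LinearMap.sum_apply, Finset.sum_apply]
  refine ⟨d + L, ?_, ?_⟩
  · rw [hval, Finset.sum_eq_single_of_mem L hL]
    · rw [(Ph_lead D d w hw L (x L)).1]
      intro h
      have := stM_inj D d (w d) hd L (h.trans (map_zero _).symm)
      exact (DFinsupp.mem_support_iff.1 hL) this
    · intro l hl hne
      have := hmax l hl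
      simp only [id] at this
      exact (Ph_lead D d w hw l (x l)).2 _ (by omega)
  · intro d' hd'
    rw [hval]
    refine Finset.sum_eq_zero (fun l hl => ?_)
    have := hmax l hl
    simp only [id] at this
    exact (Ph_lead D d w hw l (x l)).2 _ (by omega)

end Pool.Agent.H410R3.NORE
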