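import Pool.Agent.H410R3.NORE.G2

set_option autoImplicit false

/-! Closure under products. -/

namespace Pool.Agent.H410R3.NORE

open TensorProduct

theorem rT_comp {k : Type} [Field k] {X Y Z T : Type} [AddCommGroup X] [AddCommGroup Y]
    [AddCommGroup Z] [AddCommGroup T] [Module k X] [Module k Y] [Module k Z] [Module k T]
    (f : Y →ₗ[k] Z) (g : X →ₗ[k] Y) (h : X →ₗ[k] Z) (H : ∀ x, f (g x) = h x) (u : X ⊗[k] T) :
    LinearMap.rTensor T f (LinearMap.rTensor T g u) = LinearMap.rTensor T h u := by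
  have : f.comp g = h := LinearMap.ext H
  rw [← this, LinearMap.rTensor_comp]; rfl

theorem comp_sum' {k : Type} [Field k] {X Y Z : Type} [AddCommGroup X] [AddCommGroup Y]
    [AddCommGroup Z] [Module k X] [Module k Y] [Module k Z] {m : ℕ}
    (f : Y →ₗ[k] Z) (g : Fin m → (X →ₗ[k] Y)) : f.comp (∑ q, g q) = ∑ q, f.comp (g q) := by
  apply LinearMap.ext; intro x
  simp [LinearMap.sum_apply]

/-- operators landing in a submodule after composition -/
def preL {k : Type} [Field k] {X Y Z : Type} [AddCommGroup X] [AddCommGroup Y]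
    [AddCommGroup Z] [Module k X] [Module k Y] [Module k Z]
    (f : Y →ₗ[k] Z) (P : Submodule k (X →ₗ[k] Z)) : Submodule k (X →ₗ[k] Y) where
  carrier := {y | f.comp y ∈ P}
  add_mem' {a b} ha hb := by
    show f.comp (a + b) ∈ P
    rw [LinearMap.comp_add]; exact P.add_mem ha hb
  zero_mem' := by
    show f.comp 0 ∈ P
    rw [LinearMap.comp_zero]; exact P.zero_mem
  smul_mem' c a ha := by
    show f.comp (c • a) ∈ P
    rw [LinearMap.comp_smul]; exact P.smul_mem c ha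

/-- operators landing in a submodule after composition -/
def preR {k : Type} [Field k] {X Y Z : Type} [AddCommGroup X] [AddCommGroup Y]
    [AddCommGroup Z] [Module k X] [Module k Y] [Module k Z]
    (g : X →ₗ[k] Y) (P : Submodule k (X →ₗ[k] Z)) : Submodule k (Y →ₗ[k] Z) where
  carrier := {y | y.comp g ∈ P}
  add_mem' {a b} ha hb := by
    show (a + b).comp g ∈ P
    rw [LinearMap.add_comp]; exact P.add_mem ha hb
  zero_mem' := by
    show (0 : Y →ₗ[k] Z).comp g ∈ P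
    rw [LinearMap.zero_comp]; exact P.zero_mem
  smul_mem' c a ha := by
    show (c • a).comp g ∈ P
    rw [LinearMap.smul_comp]; exact P.smul_mem c ha

variable {k : Type} [Field k] {R : Type} [Ring R] [Algebra k R] {m n : ℕ}
  {A : Matrix (Fin m) (Fin n) R} (D : Dat k R m n A)

/-- right action on `T` -/
noncomputable def raT (r : R) : ∀ l : ℕ, TT D l →ₗ[k] TT D l
  | 0 => D.nr.flip r
  | l + 1 => LinearMap.lTensor D.V (raT r l)

/-- right action on `M` -/
noncomputable def raM (r : R) : ∀ l : ℕ, MM D l →ₗ[k] MM D l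
  | 0 => (LinearMap.mul k R).flip r
  | l + 1 => LinearMap.lTensor D.L (raT D r l)

theorem Hat_Act (x : D.N) (r : R) : (Hat D x).comp (Act D r) = Hat D (D.nr x r) := by
  apply LinearMap.ext; intro w; funext d
  show hat D d x (act D d r (w d)) = hat D d (D.nr x r) (w d)
  cases d with
  | zero => exact D.nr_mul x r (w 0)
  | succ d => exact rT_comp _ _ _ (fun y => D.pr_la x r y) _

theorem Act_Act (x r : R) : (Act D x).comp (Act D r) = Act D (x * r) := by
  apply LinearMap.ext; intro w; funext d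
  show act D d x (act D d r (w d)) = act D d (x * r) (w d)
  cases d with
  | zero => exact (mul_assoc x r (w 0)).symm
  | succ d => exact rT_comp _ _ _ (fun y => (D.la_mul x r y).symm) _

theorem Act_one : Act D 1 = LinearMap.id := by
  apply LinearMap.ext; intro w; funext d
  show act D d 1 (w d) = w d
  cases d with
  | zero => exact one_mul (show R from w 0)
  | succ d =>
    have : D.la 1 = LinearMap.id := LinearMap.ext D.la_one
    show LinearMap.rTensor (TT D d) (D.la 1) (w (d + 1)) = w (d + 1)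
    rw [this]
    exact LinearMap.congr_fun (LinearMap.rTensor_id (TT D d) D.L) (w (d + 1))

theorem Th_Act (r : R) (l : ℕ) : ∀ τ : TT D l, (Th D l τ).comp (Act D r) = Th D l (raT D r l τ) := by
  induction l with
  | zero => intro τ; exact Hat_Act D τ r
  | succ l ih =>
    refine TT_ind D l _ ?_ ?_ ?_
    · rw [map_zero, map_zero, map_zero, LinearMap.zero_comp]
    · intro v τ
      show ((NS D (D.sV v)).comp (Th D l τ)).comp (Act D r)
        = (NS D (D.sV v)).comp (Th D l (raT D r l τ))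
      rw [LinearMap.comp_assoc, ih]
    · intro a b ha hb
      rw [map_add, map_add, map_add, LinearMap.add_comp, ha, hb]

theorem Ph_Act (r : R) (l : ℕ) : ∀ τ : MM D l, (Ph D l τ).comp (Act D r) = Ph D l (raM D r l τ) := by
  cases l with
  | zero => intro τ; exact Act_Act D τ r
  | succ l =>
    refine MM_ind D l _ ?_ ?_ ?_
    · rw [map_zero, map_zero, map_zero, LinearMap.zero_comp]
    · intro v τ
      show ((RS D (D.sL v)).comp (Th D l τ)).comp (Act D r)
        = (RS D (D.sL v)).comp (Th D l (raT D r l τ))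
      rw [LinearMap.comp_assoc, Th_Act]
    · intro a b ha hb
      rw [map_add, map_add, map_add, LinearMap.add_comp, ha, hb]

/-- degree preserving operators -/
noncomputable def Gd (g : D.N →ₗ[k] D.N) (gV : D.V →ₗ[k] D.V) : ∀ d : ℕ, TT D d →ₗ[k] TT D d
  | 0 => g
  | d + 1 => LinearMap.rTensor (TT D d) gV

/-- degree preserving operators -/
noncomputable def Gt (g : D.N →ₗ[k] D.N) (gV : D.V →ₗ[k] D.V) : PT D →ₗ[k] PT D :=
  LinearMap.pi (fun d => (Gd D g gV d).comp (LinearMap.proj d))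

/-- degree preserving operators -/
noncomputable def Zd (g : D.N →ₗ[k] R) (gV : D.V →ₗ[k] D.L) : ∀ d : ℕ, TT D d →ₗ[k] MM D d
  | 0 => g
  | d + 1 => LinearMap.rTensor (TT D d) gV

/-- degree preserving operators -/
noncomputable def Zt (g : D.N →ₗ[k] R) (gV : D.V →ₗ[k] D.L) : PT D →ₗ[k] PM D :=
  LinearMap.pi (fun d => (Zd D g gV d).comp (LinearMap.proj d))

theorem Gt_Hat (g : D.N →ₗ[k] D.N) (gV : D.V →ₗ[k] D.V) (h1 : ∀ n r, g (D.nr n r) = D.nr (g n) r)
    (h2 : ∀ n x, gV (D.pr n x) = D.pr (g n) x) (x : D.N) :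
    (Gt D g gV).comp (Hat D x) = Hat D (g x) := by
  apply LinearMap.ext; intro w; funext d
  show Gd D g gV d (hat D d x (w d)) = hat D d (g x) (w d)
  cases d with
  | zero => exact h1 x (w 0)
  | succ d => exact rT_comp _ _ _ (fun y => h2 x y) _

theorem Zt_Hat (g : D.N →ₗ[k] R) (gV : D.V →ₗ[k] D.L) (h1 : ∀ n r, g (D.nr n r) = g n * r)
    (h2 : ∀ n x, gV (D.pr n x) = D.la (g n) x) (x : D.N) :
    (Zt D g gV).comp (Hat D x) = Act D (g x) := by
  apply LinearMap.ext; intro w; funext d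
  show Zd D g gV d (hat D d x (w d)) = act D d (g x) (w d)
  cases d with
  | zero => exact h1 x (w 0)
  | succ d => exact rT_comp _ _ _ (fun y => h2 x y) _

theorem NS_nq : NS D D.nq = LinearMap.id := by
  apply LinearMap.ext; intro t; funext d
  simp only [NS, LinearMap.sum_apply, LinearMap.comp_apply, Finset.sum_apply, Hat_apply,
    LinearMap.id_apply]
  cases d with
  | zero => exact D.nq_sN (t 0)
  | succ d =>
    have h1 : ∀ u : D.V ⊗[k] TT D d, ∑ q, LinearMap.rTensor (TT D d) (D.pr (D.nq q))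
        (LinearMap.rTensor (TT D d) (D.sq q) u) = u := by
      intro u
      refine TensorProduct.induction_on u ?_ ?_ ?_
      · simp
      · intro v τ
        simp only [LinearMap.rTensor_tmul]
        rw [← TensorProduct.sum_tmul, D.pr_sq]
      · intro a b ha hb
        simp only [map_add, Finset.sum_add_distrib]
        rw [ha, hb]
    have h2 : ∑ q, (D.pr (D.nq q) (D.el q)) ⊗ₜ[k] (t d) = (0 : D.V ⊗[k] TT D d) := by
      rw [← TensorProduct.sum_tmul, D.cl_el, D.cl_nq, TensorProduct.zero_tmul]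
    have key : ∑ q, ((LinearMap.rTensor (TT D d) (D.pr (D.nq q))
            (LinearMap.rTensor (TT D d) (D.sq q) (t (d + 1))) : D.V ⊗[k] TT D d)
            + (D.pr (D.nq q) (D.el q)) ⊗ₜ[k] (t d)) = (t (d + 1) : D.V ⊗[k] TT D d) := by
      rw [Finset.sum_add_distrib, h2, add_zero]
      exact h1 (t (d + 1))
    refine Eq.trans ?_ key
    refine Finset.sum_congr rfl (fun q _ => ?_)
    rw [Sg_succ, map_add]; rfl

theorem NS_comp (g : D.N →ₗ[k] D.N) (gV : D.V →ₗ[k] D.V) (h1 : ∀ n r, g (D.nr n r) = D.nr (g n) r)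
    (h2 : ∀ n x, gV (D.pr n x) = D.pr (g n) x) (ν : Fin m → D.N) :
    (Gt D g gV).comp (NS D ν) = NS D (fun q => g (ν q)) := by
  rw [NS, NS, comp_sum']
  refine Finset.sum_congr rfl (fun q _ => ?_)
  rw [← LinearMap.comp_assoc, Gt_Hat D g gV h1 h2]

theorem RS_comp (g : D.N →ₗ[k] R) (gV : D.V →ₗ[k] D.L) (h1 : ∀ n r, g (D.nr n r) = g n * r)
    (h2 : ∀ n x, gV (D.pr n x) = D.la (g n) x) (ν : Fin m → D.N) :
    (Zt D g gV).comp (NS D ν) = RS D (fun q => g (ν q)) := by
  rw [NS, RS, comp_sum']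
  refine Finset.sum_congr rfl (fun q _ => ?_)
  rw [← LinearMap.comp_assoc, Zt_Hat D g gV h1 h2]

theorem Hat_RS (x : D.N) (ρ : Fin m → R) :
    (Hat D x).comp (RS D ρ) = NS D (fun q => D.nr x (ρ q)) := by
  rw [NS, RS, comp_sum']
  refine Finset.sum_congr rfl (fun q _ => ?_)
  rw [← LinearMap.comp_assoc, Hat_Act]

theorem Act_RS (x : R) (ρ : Fin m → R) :
    (Act D x).comp (RS D ρ) = RS D (fun q => x * (ρ q)) := by
  rw [RS, RS, comp_sum']
  refine Finset.sum_congr rfl (fun q _ => ?_)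
  rw [← LinearMap.comp_assoc, Act_Act]

theorem NS_endo (ν : Fin m → D.N) (h : D.cl ν = 0) : ∃ (g : D.N →ₗ[k] D.N) (gV : D.V →ₗ[k] D.V),
    (∀ q, g (D.nq q) = ν q) ∧ (∀ n r, g (D.nr n r) = D.nr (g n) r) ∧
    (∀ n x, gV (D.pr n x) = D.pr (g n) x) ∧ NS D ν = Gt D g gV := by
  obtain ⟨g, gV, h1, h2, h3⟩ := D.endo ν h
  refine ⟨g, gV, h1, h2, h3, ?_⟩
  have := NS_comp D g gV h2 h3 D.nq
  rw [NS_nq, LinearMap.comp_id] at this
  rw [this]
  congr 1
  funext q
  exact (h1 q).symm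

theorem RS_zed (ν : Fin m → R) (h : D.cL ν = 0) : ∃ (g : D.N →ₗ[k] R) (gV : D.V →ₗ[k] D.L),
    (∀ q, g (D.nq q) = ν q) ∧ (∀ n r, g (D.nr n r) = g n * r) ∧
    (∀ n x, gV (D.pr n x) = D.la (g n) x) ∧ RS D ν = Zt D g gV := by
  obtain ⟨g, gV, h1, h2, h3⟩ := D.zed ν h
  refine ⟨g, gV, h1, h2, h3, ?_⟩
  have := RS_comp D g gV h2 h3 D.nq
  rw [NS_nq, LinearMap.comp_id] at this
  rw [this]
  congr 1
  funext q
  exact (h1 q).symm

/-- the operators to `T` -/
noncomputable def TR : Submodule k (PM D →ₗ[k] PT D) := LinearMap.range (ThT D)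
/-- the operators to `M` -/
noncomputable def SR : Submodule k (PM D →ₗ[k] PM D) := LinearMap.range (PhT D)

theorem ThT_single (l : ℕ) (τ : TT D l) : ThT D (DFinsupp.single l τ) = Th D l τ := by
  rw [ThT, DFinsupp.lsum_single]

theorem PhT_single (l : ℕ) (τ : MM D l) : PhT D (DFinsupp.single l τ) = Ph D l τ := by
  rw [PhT, DFinsupp.lsum_single]

theorem Th_mem (l : ℕ) (τ : TT D l) : Th D l τ ∈ TR D := ⟨_, ThT_single D l τ⟩
theorem Ph_mem (l : ℕ) (τ : MM D l) : Ph D l τ ∈ SR D := ⟨_, PhT_single D l τ⟩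

open Classical in
theorem TR_le (P : Submodule k (PM D →ₗ[k] PT D)) (h : ∀ l τ, Th D l τ ∈ P) : TR D ≤ P := by
  rintro _ ⟨x, rfl⟩
  have : ThT D x = ∑ l ∈ x.support, Th D l (x l) := by
    rw [ThT, DFinsupp.lsum_apply_apply, DFinsupp.sumAddHom_apply, DFinsupp.sum]
    rfl
  rw [this]
  exact P.sum_mem (fun l _ => h l _)

open Classical in
theorem SR_le (P : Submodule k (PM D →ₗ[k] PM D)) (h : ∀ l τ, Ph D l τ ∈ P) : SR D ≤ P := by
  rintro _ ⟨x, rfl⟩
  have : PhT D x = ∑ l ∈ x.support, Ph D l (x l) := by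
    rw [PhT, DFinsupp.lsum_apply_apply, DFinsupp.sumAddHom_apply, DFinsupp.sum]
    rfl
  rw [this]
  exact P.sum_mem (fun l _ => h l _)

theorem cl_sub (ν : Fin m → D.N) : D.cl (ν - D.sV (D.cl ν)) = 0 := by
  rw [map_sub, D.cl_sV, sub_self]

theorem cL_sub (ν : Fin m → R) : D.cL (ν - D.sL (D.cL ν)) = 0 := by
  rw [map_sub, D.cL_sL, sub_self]

theorem NS_Th_of (l : ℕ)
    (H : ∀ (g : D.N →ₗ[k] D.N) (gV : D.V →ₗ[k] D.V), (∀ n r, g (D.nr n r) = D.nr (g n) r) →
      (∀ n x, gV (D.pr n x) = D.pr (g n) x) → ∀ τ : TT D l, (Gt D g gV).comp (Th D l τ) ∈ TR D)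
    (ν : Fin m → D.N) (τ : TT D l) : (NS D ν).comp (Th D l τ) ∈ TR D := by
  obtain ⟨g, gV, h1, h2, h3, h4⟩ := NS_endo D _ (cl_sub D ν)
  have e : NS D ν = NS D (D.sV (D.cl ν)) + NS D (ν - D.sV (D.cl ν)) := by
    rw [← NS_add]; congr 1; abel
  rw [e, h4, LinearMap.add_comp]
  exact (TR D).add_mem (Th_mem D (l + 1) ((D.cl ν) ⊗ₜ[k] τ : D.V ⊗[k] TT D l)) (H g gV h2 h3 τ)

theorem Gt_Th (l : ℕ) :
    ∀ (g : D.N →ₗ[k] D.N) (gV : D.V →ₗ[k] D.V), (∀ n r, g (D.nr n r) = D.nr (g n) r) →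
      (∀ n x, gV (D.pr n x) = D.pr (g n) x) → ∀ τ : TT D l, (Gt D g gV).comp (Th D l τ) ∈ TR D := by
  induction l with
  | zero =>
    intro g gV h1 h2 τ
    have e : (Gt D g gV).comp (Th D 0 τ) = Th D 0 (g τ) := Gt_Hat D g gV h1 h2 τ
    rw [e]
    exact Th_mem D 0 (g τ)
  | succ l ih =>
    intro g gV h1 h2
    refine TT_ind D l _ ?_ ?_ ?_
    · rw [map_zero, LinearMap.comp_zero]; exact (TR D).zero_mem
    · intro v τ
      show (Gt D g gV).comp ((NS D (D.sV v)).comp (Th D l τ)) ∈ TR D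
      rw [← LinearMap.comp_assoc, NS_comp D g gV h1 h2]
      exact NS_Th_of D l ih _ τ
    · intro a b ha hb
      rw [map_add, LinearMap.comp_add]; exact (TR D).add_mem ha hb

theorem NS_Th (ν : Fin m → D.N) (l : ℕ) (τ : TT D l) : (NS D ν).comp (Th D l τ) ∈ TR D :=
  NS_Th_of D l (Gt_Th D l) ν τ

theorem NS_TR (ν : Fin m → D.N) (y : PM D →ₗ[k] PT D) (hy : y ∈ TR D) : (NS D ν).comp y ∈ TR D :=
  TR_le D (preL (NS D ν) (TR D)) (fun l τ => NS_Th D ν l τ) hy

theorem RS_Th_of (l : ℕ)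
    (H : ∀ (g : D.N →ₗ[k] R) (gV : D.V →ₗ[k] D.L), (∀ n r, g (D.nr n r) = g n * r) →
      (∀ n x, gV (D.pr n x) = D.la (g n) x) → ∀ τ : TT D l, (Zt D g gV).comp (Th D l τ) ∈ SR D)
    (ν : Fin m → R) (τ : TT D l) : (RS D ν).comp (Th D l τ) ∈ SR D := by
  obtain ⟨g, gV, h1, h2, h3, h4⟩ := RS_zed D _ (cL_sub D ν)
  have e : RS D ν = RS D (D.sL (D.cL ν)) + RS D (ν - D.sL (D.cL ν)) := by
    rw [← RS_add]; congr 1; abel
  rw [e, h4, LinearMap.add_comp]
  exact (SR D).add_mem (Ph_mem D (l + 1) ((D.cL ν) ⊗ₜ[k] τ : D.L ⊗[k] TT D l)) (H g gV h2 h3 τ)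

theorem Zt_Th (l : ℕ) :
    ∀ (g : D.N →ₗ[k] R) (gV : D.V →ₗ[k] D.L), (∀ n r, g (D.nr n r) = g n * r) →
      (∀ n x, gV (D.pr n x) = D.la (g n) x) → ∀ τ : TT D l, (Zt D g gV).comp (Th D l τ) ∈ SR D := by
  induction l with
  | zero =>
    intro g gV h1 h2 τ
    have e : (Zt D g gV).comp (Th D 0 τ) = Ph D 0 (g τ) := Zt_Hat D g gV h1 h2 τ
    rw [e]
    exact Ph_mem D 0 (g τ)
  | succ l ih =>
    intro g gV h1 h2
    refine TT_ind D l _ ?_ ?_ ?_
    · rw [map_zero, LinearMap.comp_zero]; exact (SR D).zero_mem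
    · intro v τ
      show (Zt D g gV).comp ((NS D (D.sV v)).comp (Th D l τ)) ∈ SR D
      rw [← LinearMap.comp_assoc, RS_comp D g gV h1 h2]
      exact RS_Th_of D l ih _ τ
    · intro a b ha hb
      rw [map_add, LinearMap.comp_add]; exact (SR D).add_mem ha hb

theorem RS_Th (ν : Fin m → R) (l : ℕ) (τ : TT D l) : (RS D ν).comp (Th D l τ) ∈ SR D :=
  RS_Th_of D l (Zt_Th D l) ν τ

theorem RS_TR (ν : Fin m → R) (y : PM D →ₗ[k] PT D) (hy : y ∈ TR D) : (RS D ν).comp y ∈ SR D :=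
  TR_le D (preL (RS D ν) (SR D)) (fun l τ => RS_Th D ν l τ) hy

theorem Hat_SR (x : D.N) (y : PM D →ₗ[k] PM D) (hy : y ∈ SR D) : (Hat D x).comp y ∈ TR D := by
  refine SR_le D (preL (Hat D x) (TR D)) (fun l => ?_) hy
  cases l with
  | zero =>
    intro r
    have e : (Hat D x).comp (Ph D 0 r) = Th D 0 (D.nr x r) := Hat_Act D x r
    show (Hat D x).comp (Ph D 0 r) ∈ TR D
    rw [e]; exact Th_mem D 0 _
  | succ l =>
    refine MM_ind D l _ ?_ ?_ ?_
    · rw [map_zero]; exact Submodule.zero_mem _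
    · intro v τ
      show (Hat D x).comp ((RS D (D.sL v)).comp (Th D l τ)) ∈ TR D
      rw [← LinearMap.comp_assoc, Hat_RS]
      exact NS_Th D _ l τ
    · intro a b ha hb
      rw [map_add]; exact Submodule.add_mem _ ha hb

theorem Act_SR (x : R) (y : PM D →ₗ[k] PM D) (hy : y ∈ SR D) : (Act D x).comp y ∈ SR D := by
  refine SR_le D (preL (Act D x) (SR D)) (fun l => ?_) hy
  cases l with
  | zero =>
    intro r
    have e : (Act D x).comp (Ph D 0 r) = Ph D 0 (x * (show R from r)) := Act_Act D x r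
    show (Act D x).comp (Ph D 0 r) ∈ SR D
    rw [e]; exact Ph_mem D 0 _
  | succ l =>
    refine MM_ind D l _ ?_ ?_ ?_
    · rw [map_zero]; exact Submodule.zero_mem _
    · intro v τ
      show (Act D x).comp ((RS D (D.sL v)).comp (Th D l τ)) ∈ SR D
      rw [← LinearMap.comp_assoc, Act_RS]
      exact RS_Th D _ l τ
    · intro a b ha hb
      rw [map_add]; exact Submodule.add_mem _ ha hb

theorem Th_SR (l : ℕ) : ∀ (τ : TT D l) (y : PM D →ₗ[k] PM D) (_ : y ∈ SR D),
    (Th D l τ).comp y ∈ TR D := by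
  induction l with
  | zero => intro τ y hy; exact Hat_SR D τ y hy
  | succ l ih =>
    refine TT_ind D l _ ?_ ?_ ?_
    · intro y hy
      rw [map_zero, LinearMap.zero_comp]; exact Submodule.zero_mem _
    · intro v τ y hy
      show ((NS D (D.sV v)).comp (Th D l τ)).comp y ∈ TR D
      rw [LinearMap.comp_assoc]
      exact NS_TR D _ _ (ih τ y hy)
    · intro a b ha hb y hy
      rw [map_add, LinearMap.add_comp]; exact Submodule.add_mem _ (ha y hy) (hb y hy)

theorem Ph_SR (l : ℕ) : ∀ (τ : MM D l) (y : PM D →ₗ[k] PM D) (_ : y ∈ SR D),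
    (Ph D l τ).comp y ∈ SR D := by
  cases l with
  | zero => intro τ y hy; exact Act_SR D τ y hy
  | succ l =>
    refine MM_ind D l _ ?_ ?_ ?_
    · intro y hy
      rw [map_zero, LinearMap.zero_comp]; exact Submodule.zero_mem _
    · intro v τ y hy
      show ((RS D (D.sL v)).comp (Th D l τ)).comp y ∈ SR D
      rw [LinearMap.comp_assoc]
      exact RS_TR D _ _ (Th_SR D l τ y hy)
    · intro a b ha hb y hy
      rw [map_add, LinearMap.add_comp]; exact Submodule.add_mem _ (ha y hy) (hb y hy)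

theorem SR_mul (x y : PM D →ₗ[k] PM D) (hx : x ∈ SR D) (hy : y ∈ SR D) : x.comp y ∈ SR D :=
  SR_le D (preR y (SR D)) (fun l τ => Ph_SR D l τ y hy) hx

end Pool.Agent.H410R3.NORE
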