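import Pool.Agent.H410R3.NORE.G3

set_option autoImplicit false

/-! The algebra and its properties. -/

namespace Pool.Agent.H410R3.NORE

open TensorProduct Matrix

variable {k : Type} [Field k] {R : Type} [Ring R] [Algebra k R] {m n : ℕ}
  {A : Matrix (Fin m) (Fin n) R} (D : Dat k R m n A)

/-- the algebra -/
noncomputable def SA : Subalgebra k (Module.End k (PM D)) where
  carrier := {x | x ∈ SR D}
  mul_mem' {x y} hx hy := SR_mul D x y hx hy
  add_mem' {x y} hx hy := (SR D).add_mem hx hy
  algebraMap_mem' c := by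
    have : (algebraMap k (Module.End k (PM D)) c) = c • Act D 1 := by
      rw [Act_one]; rfl
    show algebraMap k (Module.End k (PM D)) c ∈ SR D
    rw [this]
    exact (SR D).smul_mem c (Ph_mem D 0 (1 : R))

/-- the unit vector -/
def onev : PM D := fun d => match d with
  | 0 => (1 : R)
  | _ + 1 => 0

theorem PhT_inj [IsDomain R] (x : Π₀ l, MM D l) (h : PhT D x (onev D) = 0) : x = 0 := by
  by_contra hx
  obtain ⟨e, he, _⟩ := PhT_lead D 0 (onev D) (by
    intro d' hd'
    obtain ⟨e, rfl⟩ : ∃ e, d' = e + 1 := ⟨d' - 1, by omega⟩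
    rfl) (one_ne_zero (α := R)) x hx
  exact he (congrFun h e)

theorem ev_inj [IsDomain R] (y : PM D →ₗ[k] PM D) (hy : y ∈ SR D) (h : y (onev D) = 0) :
    y = 0 := by
  obtain ⟨x, rfl⟩ := hy
  rw [PhT_inj D x h, map_zero]

theorem SR_dom [IsDomain R] (x y : PM D →ₗ[k] PM D) (hx : x ∈ SR D) (hy : y ∈ SR D)
    (h : x.comp y = 0) : x = 0 ∨ y = 0 := by
  by_contra hcon
  push Not at hcon
  obtain ⟨hx0, hy0⟩ := hcon
  obtain ⟨x, rfl⟩ := hx
  obtain ⟨y, rfl⟩ := hy
  have hx1 : x ≠ 0 := by rintro rfl; exact hx0 (map_zero _)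
  have hy1 : y ≠ 0 := by rintro rfl; exact hy0 (map_zero _)
  obtain ⟨e, he, he2⟩ := PhT_lead D 0 (onev D) (by
    intro d' hd'
    obtain ⟨e, rfl⟩ : ∃ e, d' = e + 1 := ⟨d' - 1, by omega⟩
    rfl) (one_ne_zero (α := R)) y hy1
  obtain ⟨f, hf, _⟩ := PhT_lead D e (PhT D y (onev D)) he2 he x hx1
  apply hf
  have := LinearMap.congr_fun h (onev D)
  exact congrFun this f

theorem SA_domain [IsDomain R] : IsDomain (SA D) := by
  have : Nontrivial (SA D) := by
    refine ⟨⟨0, 1, fun h => ?_⟩⟩
    have h1 : (0 : Module.End k (PM D)) = 1 := congrArg Subtype.val h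
    have h2 := congrFun (LinearMap.congr_fun h1 (onev D)) 0
    exact zero_ne_one (α := R) h2
  have : NoZeroDivisors (SA D) := by
    refine ⟨fun {a b} h => ?_⟩
    have h1 : (a : Module.End k (PM D)) * b = 0 := congrArg Subtype.val h
    rcases SR_dom D a b a.2 b.2 h1 with h2 | h2
    · left; exact Subtype.ext h2
    · right; exact Subtype.ext h2
  exact NoZeroDivisors.to_isDomain (↥(SA D))

/-- the embedding -/
noncomputable def phi : R →ₐ[k] SA D :=
  AlgHom.ofLinearMap ((Act D).codRestrict (Subalgebra.toSubmodule (SA D))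
    (fun r => Ph_mem D 0 r)) (Subtype.ext (Act_one D))
    (fun a b => Subtype.ext (Act_Act D a b).symm)

theorem phi_coe (r : R) : ((phi D r : SA D) : Module.End k (PM D)) = Act D r := rfl

theorem phi_inj : Function.Injective (phi D) := by
  intro a b h
  have h1 : Act D a = Act D b := congrArg Subtype.val h
  have h2 := congrFun (LinearMap.congr_fun h1 (onev D)) 0
  have h3 : a * (1 : R) = b * 1 := h2
  simpa using h3

theorem RS_single (p : Fin m) : RS D (Pi.single p 1) = Sg D p := by
  rw [RS, Finset.sum_eq_single p]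
  · rw [Pi.single_eq_same, Act_one, LinearMap.id_comp]
  · intro q _ hq
    rw [Pi.single_eq_of_ne hq, map_zero, LinearMap.zero_comp]
  · intro h; exact absurd (Finset.mem_univ _) h

/-- operators of the idempotent -/
noncomputable def eO (p q : Fin m) : PM D →ₗ[k] PM D := (Sg D p).comp (Hat D (D.nq q))

theorem eO_mem (p q : Fin m) : eO D p q ∈ SR D := by
  rw [eO, ← RS_single]
  exact RS_Th D _ 0 (D.nq q)

/-- the idempotent -/
noncomputable def eM : Matrix (Fin m) (Fin m) (SA D) := fun p q => ⟨eO D p q, eO_mem D p q⟩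

theorem eM_A : eM D * A.map (phi D) = 0 := by
  refine Matrix.ext (fun p j => ?_)
  rw [Matrix.mul_apply]
  apply Subtype.ext
  rw [AddSubmonoidClass.coe_finsetSum]
  have e1 : ∀ q, ((eM D p q * A.map (phi D) q j : SA D) : Module.End k (PM D))
      = (Sg D p).comp (Hat D (D.nr (D.nq q) (A q j))) := by
    intro q
    show ((Sg D p).comp (Hat D (D.nq q))).comp (Act D (A q j)) = _
    rw [LinearMap.comp_assoc, Hat_Act]
  have e2 : ∑ q, (Sg D p).comp (Hat D (D.nr (D.nq q) (A q j))) = 0 := by
    rw [← comp_sum', ← map_sum, D.nqA, map_zero, LinearMap.comp_zero]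
  exact (Finset.sum_congr rfl (fun q _ => e1 q)).trans e2

open Classical in
theorem K_step (l : ℕ) (Y : Type) [AddCommGroup Y] [Module k Y] (X : Type) [AddCommGroup X]
    [Module k X] (F : Y ⊗[k] TT D l →ₗ[k] (PM D →ₗ[k] X)) (O : Y → (PT D →ₗ[k] X))
    (hF : ∀ y τ, F (y ⊗ₜ[k] τ) = (O y).comp (Th D l τ)) (E : Fin m → (PM D →ₗ[k] PM D))
    (p : Fin m)
    (IH : ∀ τ : Fin m → TT D l, (∀ j, ∑ q, raT D (A q j) l (τ q) = 0) →
      ∑ q, (Th D l (τ q)).comp (E q) = Th D l (τ p))
    (τ : Fin m → Y ⊗[k] TT D l) (h : ∀ j, ∑ q, LinearMap.lTensor Y (raT D (A q j) l) (τ q) = 0) :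
    ∑ q, (F (τ q)).comp (E q) = F (τ p) := by
  set b := Module.Basis.ofVectorSpace k Y with hb
  set c : Y ⊗[k] TT D l ≃ₗ[k] _ := TensorProduct.equivFinsuppOfBasisLeft b with hc
  have hnat : ∀ (f : TT D l →ₗ[k] TT D l) (u : Y ⊗[k] TT D l) i,
      c (LinearMap.lTensor Y f u) i = f (c u i) := by
    intro f u i
    refine TensorProduct.induction_on u ?_ ?_ ?_
    · simp
    · intro y t
      rw [LinearMap.lTensor_tmul, hc, TensorProduct.equivFinsuppOfBasisLeft_apply_tmul_apply,
        TensorProduct.equivFinsuppOfBasisLeft_apply_tmul_apply, map_smul]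
    · intro a b ha hb
      rw [map_add, map_add, Finsupp.add_apply, ha, hb, map_add, Finsupp.add_apply, map_add]
  set s : Finset _ := Finset.univ.biUnion (fun q : Fin m => (c (τ q)).support) with hs
  have hdec : ∀ q, τ q = ∑ i ∈ s, b i ⊗ₜ[k] (c (τ q) i) := by
    intro q
    have h1 : τ q = c.symm (c (τ q)) := (c.symm_apply_apply _).symm
    have h2 : c.symm (c (τ q)) = (c (τ q)).sum (fun i t => b i ⊗ₜ[k] t) := by
      rw [hc, TensorProduct.equivFinsuppOfBasisLeft_symm_apply]
    rw [Finsupp.sum] at h2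
    conv_lhs => rw [h1, h2]
    refine Finset.sum_subset ?_ ?_
    · intro i hi
      exact Finset.mem_biUnion.2 ⟨q, Finset.mem_univ _, hi⟩
    · intro i _ hi
      rw [Finsupp.notMem_support_iff.1 hi, TensorProduct.tmul_zero]
  have hF2 : ∀ q, F (τ q) = ∑ i ∈ s, (O (b i)).comp (Th D l (c (τ q) i)) := by
    intro q
    conv_lhs => rw [hdec q]
    rw [map_sum]
    exact Finset.sum_congr rfl (fun i _ => hF _ _)
  have hIH : ∀ i, ∑ q, (Th D l (c (τ q) i)).comp (E q) = Th D l (c (τ p) i) := by
    intro i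
    refine IH (fun q => c (τ q) i) (fun j => ?_)
    have h1 := congrArg (fun u => c u i) (h j)
    simp only [map_sum, map_zero, Finsupp.finsetSum_apply, Finsupp.zero_apply, hnat] at h1
    exact h1
  have h3 : ∀ q, (F (τ q)).comp (E q)
      = ∑ i ∈ s, (O (b i)).comp ((Th D l (c (τ q) i)).comp (E q)) := by
    intro q
    rw [hF2 q]
    apply LinearMap.ext; intro x
    simp [LinearMap.sum_apply]
  rw [Finset.sum_congr rfl (fun q _ => h3 q), Finset.sum_comm, hF2 p]
  refine Finset.sum_congr rfl (fun i _ => ?_)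
  rw [← comp_sum', hIH]

theorem NS_hat (ν : Fin m → D.N) (x : D.N) :
    (NS D ν).comp (Hat D x) = ∑ q, (Hat D (ν q)).comp ((Sg D q).comp (Hat D x)) := by
  rw [NS]
  apply LinearMap.ext; intro w
  simp [LinearMap.sum_apply]

theorem RS_hat (ν : Fin m → R) (x : D.N) :
    (RS D ν).comp (Hat D x) = ∑ q, (Act D (ν q)).comp ((Sg D q).comp (Hat D x)) := by
  rw [RS]
  apply LinearMap.ext; intro w
  simp [LinearMap.sum_apply]

theorem K_T (p : Fin m) (l : ℕ) : ∀ τ : Fin m → TT D l, (∀ j, ∑ q, raT D (A q j) l (τ q) = 0) →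
      ∑ q, (Th D l (τ q)).comp (eO D q p) = Th D l (τ p) := by
  induction l with
  | zero =>
    intro τ h
    obtain ⟨g, gV, h1, h2, h3, h4⟩ := NS_endo D τ (D.kerA τ h)
    have e1 : ∑ q, (Th D 0 (τ q)).comp (eO D q p) = (NS D τ).comp (Hat D (D.nq p)) :=
      (NS_hat D τ (D.nq p)).symm
    have e2 : (Gt D g gV).comp (Hat D (D.nq p)) = Th D 0 (τ p) := by
      rw [Gt_Hat D g gV h2 h3, h1]; rfl
    rw [e1, h4, e2]
  | succ l ih =>
    intro τ h
    exact K_step D l D.V (PT D) (Th D (l + 1)) (fun v => NS D (D.sV v)) (fun y τ => rfl)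
      (fun q => eO D q p) p ih τ h

theorem K_M (p : Fin m) (l : ℕ) : ∀ τ : Fin m → MM D l, (∀ j, ∑ q, raM D (A q j) l (τ q) = 0) →
      ∑ q, (Ph D l (τ q)).comp (eO D q p) = Ph D l (τ p) := by
  cases l with
  | zero =>
    intro τ h
    obtain ⟨g, gV, h1, h2, h3, h4⟩ := RS_zed D τ (D.kerAR τ h)
    have e1 : ∑ q, (Ph D 0 (τ q)).comp (eO D q p) = (RS D τ).comp (Hat D (D.nq p)) :=
      (RS_hat D τ (D.nq p)).symm
    have e2 : (Zt D g gV).comp (Hat D (D.nq p)) = Ph D 0 (τ p) := by
      rw [Zt_Hat D g gV h2 h3, h1]; rfl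
    rw [e1, h4, e2]
  | succ l =>
    intro τ h
    exact K_step D l D.L (PM D) (Ph D (l + 1)) (fun v => RS D (D.sL v)) (fun y τ => rfl)
      (fun q => eO D q p) p (K_T D p l) τ h

open Classical in
theorem PhT_eq (x : Π₀ l, MM D l) (s : Finset ℕ) (hs : x.support ⊆ s) :
    PhT D x = ∑ l ∈ s, Ph D l (x l) := by
  have : PhT D x = ∑ l ∈ x.support, Ph D l (x l) := by
    rw [PhT, DFinsupp.lsum_apply_apply, DFinsupp.sumAddHom_apply, DFinsupp.sum]
    rfl
  rw [this]
  refine Finset.sum_subset hs (fun l _ hl => ?_)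
  rw [DFinsupp.notMem_support_iff.1 hl, map_zero]

open Classical in
theorem leftker [IsDomain R] (x : Fin m → PM D →ₗ[k] PM D) (hx : ∀ q, x q ∈ SR D)
    (h : ∀ j, ∑ q, (x q).comp (Act D (A q j)) = 0) (p : Fin m) :
    ∑ q, (x q).comp (eO D q p) = x p := by
  choose y hy using hx
  set s : Finset ℕ := Finset.univ.biUnion (fun q : Fin m => (y q).support) with hs
  have hsub : ∀ q, (y q).support ⊆ s := fun q i hi =>
    Finset.mem_biUnion.2 ⟨q, Finset.mem_univ _, hi⟩
  have hxe : ∀ q, x q = ∑ l ∈ s, Ph D l (y q l) := fun q => by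
    rw [← hy q]; exact PhT_eq D (y q) s (hsub q)
  -- degreewise vanishing
  have hz : ∀ j l, ∑ q, raM D (A q j) l (y q l) = 0 := by
    intro j
    set z : Π₀ l, MM D l := ∑ q, DFinsupp.mapRange.linearMap (raM D (A q j)) (y q) with hzdef
    have h1 : PhT D z = 0 := by
      rw [← h j, hzdef, map_sum]
      refine Finset.sum_congr rfl (fun q _ => ?_)
      have hsub' : (DFinsupp.mapRange.linearMap (raM D (A q j)) (y q)).support ⊆ s := by
        intro i hi
        apply hsub q
        rw [DFinsupp.mem_support_iff] at hi ⊢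
        intro h0
        apply hi
        rw [DFinsupp.mapRange.linearMap_apply, DFinsupp.mapRange_apply, h0, map_zero]
      rw [PhT_eq D _ s hsub', hxe q]
      have : (∑ l ∈ s, Ph D l (y q l)).comp (Act D (A q j))
          = ∑ l ∈ s, (Ph D l (y q l)).comp (Act D (A q j)) := by
        apply LinearMap.ext; intro w
        simp [LinearMap.sum_apply]
      rw [this]
      refine Finset.sum_congr rfl (fun l _ => ?_)
      rw [DFinsupp.mapRange.linearMap_apply, DFinsupp.mapRange_apply, Ph_Act]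
    have h2 : z = 0 := PhT_inj D z (by rw [h1]; rfl)
    intro l
    have h3 := congrArg (fun u : Π₀ l, MM D l => u l) h2
    rw [hzdef] at h3
    simpa [DFinsupp.finsetSum_apply] using h3
  have h4 : ∀ q, (x q).comp (eO D q p) = ∑ l ∈ s, (Ph D l (y q l)).comp (eO D q p) := by
    intro q
    rw [hxe q]
    apply LinearMap.ext; intro w
    simp [LinearMap.sum_apply]
  rw [Finset.sum_congr rfl (fun q _ => h4 q), Finset.sum_comm, hxe p]
  refine Finset.sum_congr rfl (fun l _ => ?_)
  exact K_M D p l (fun q => y q l) (fun j => hz j l)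

/-- left linear functionals -/
noncomputable def fun0 : PM D →ₗ[k] R := LinearMap.proj (R := k) (φ := fun d => MM D d) 0

/-- left linear functionals -/
noncomputable def funS (d : ℕ) (j : Fin n) (f : TT D d →ₗ[k] k) : PM D →ₗ[k] R :=
  ((TensorProduct.rid k R).toLinearMap.comp (TensorProduct.map (D.lam j) f)).comp
    (LinearMap.proj (R := k) (φ := fun d => MM D d) (d + 1))

theorem funS_act (d : ℕ) (j : Fin n) (f : TT D d →ₗ[k] k) (r : R) (w : PM D) :
    funS D d j f (Act D r w) = r * funS D d j f w := by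
  have h : ∀ u : D.L ⊗[k] TT D d,
      TensorProduct.rid k R (TensorProduct.map (D.lam j) f (LinearMap.rTensor (TT D d) (D.la r) u))
        = r * TensorProduct.rid k R (TensorProduct.map (D.lam j) f u) := by
    intro u
    refine TensorProduct.induction_on u ?_ ?_ ?_
    · simp
    · intro x t
      simp [D.lam_la]
    · intro a b ha hb
      simp only [map_add, ha, hb, mul_add]
  exact h (w (d + 1))

open Classical in
theorem fun_sep (w : PM D) (h0 : fun0 D w = 0) (hS : ∀ d j f, funS D d j f w = 0) : w = 0 := by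
  funext d
  cases d with
  | zero => exact h0
  | succ d =>
    have key : ∀ u : D.L ⊗[k] TT D d, (∀ j (f : TT D d →ₗ[k] k),
        TensorProduct.rid k R (TensorProduct.map (D.lam j) f u) = 0) → u = 0 := by
      intro u hu
      set b := Module.Basis.ofVectorSpace k (TT D d) with hb
      set c : D.L ⊗[k] TT D d ≃ₗ[k] _ := TensorProduct.equivFinsuppOfBasisRight b with hc
      have hcc : ∀ (j : Fin n) i (v : D.L ⊗[k] TT D d),
          D.lam j (c v i) = TensorProduct.rid k R (TensorProduct.map (D.lam j) (b.coord i) v) := by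
        intro j i v
        refine TensorProduct.induction_on v ?_ ?_ ?_
        · simp
        · intro x t
          rw [hc, TensorProduct.equivFinsuppOfBasisRight_apply_tmul_apply]
          simp
        · intro a b ha hb
          rw [map_add, Finsupp.add_apply, map_add, ha, hb, map_add, map_add]
      have : c u = 0 := by
        ext i
        rw [Finsupp.zero_apply]
        exact D.lam_inj _ (fun j => by rw [hcc]; exact hu j _)
      exact (LinearEquiv.map_eq_zero_iff c).1 this
    exact key (w (d + 1)) (fun j f => hS d j f)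

theorem act_eq_of {t : ℕ} (a : Fin t → R) (w : Fin t → PM D) (v : PM D)
    (h : ∀ F : PM D →ₗ[k] R, (∀ r w, F (Act D r w) = r * F w) → ∑ j, a j * F (w j) = F v) :
    ∑ j, Act D (a j) (w j) = v := by
  rw [← sub_eq_zero]
  apply fun_sep
  · rw [map_sub, map_sum, ← h (fun0 D) (fun r w => rfl)]
    exact sub_eq_zero.2 rfl
  · intro d j f
    rw [map_sub, map_sum, ← h (funS D d j f) (funS_act D d j f), sub_eq_zero]
    exact Finset.sum_congr rfl (fun i _ => funS_act D d j f _ _)

theorem coe_sum {t : ℕ} (f : Fin t → SA D) :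
    ((∑ j, f j : SA D) : Module.End k (PM D)) = ∑ j, (f j : Module.End k (PM D)) :=
  AddSubmonoidClass.coe_finsetSum _ _

theorem preserve [IsDomain R] (s t : ℕ) (B : Matrix (Fin s) (Fin t) R)
    (g : Matrix (Fin t) (Fin t) R) (hk : ∀ y : Fin t → R, B *ᵥ y = 0 → g *ᵥ y = y)
    (y : Fin t → SA D) (hy : B.map (phi D) *ᵥ y = 0) : g.map (phi D) *ᵥ y = y := by
  funext i
  have h1 : ∀ i, ∑ j, Act D (B i j) ((y j : Module.End k (PM D)) (onev D)) = 0 := by
    intro i
    have h2 := congrArg (fun u : SA D => (u : Module.End k (PM D)) (onev D)) (congrFun hy i)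
    have h3 : (B.map (phi D) *ᵥ y) i = ∑ j, phi D (B i j) * y j := rfl
    simp only [h3, coe_sum, LinearMap.sum_apply] at h2
    exact h2
  have h4 : ∑ j, Act D (g i j) ((y j : Module.End k (PM D)) (onev D))
      = (y i : Module.End k (PM D)) (onev D) := by
    refine act_eq_of D _ _ _ (fun F hF => ?_)
    have h5 := hk (fun j => F ((y j : Module.End k (PM D)) (onev D))) (by
      funext i'
      show ∑ j, B i' j * F ((y j : Module.End k (PM D)) (onev D)) = 0
      have := congrArg F (h1 i')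
      rw [map_sum, map_zero] at this
      rw [← this]
      exact Finset.sum_congr rfl (fun j _ => (hF _ _).symm))
    exact congrFun h5 i
  have h6 : (((g.map (phi D) *ᵥ y) i - y i : SA D) : Module.End k (PM D)) = 0 := by
    refine ev_inj D _ ((g.map (phi D) *ᵥ y) i - y i).2 ?_
    have h7 : (g.map (phi D) *ᵥ y) i = ∑ j, phi D (g i j) * y j := rfl
    rw [h7]
    show (((∑ j, phi D (g i j) * y j : SA D) : Module.End k (PM D))
      - (y i : Module.End k (PM D))) (onev D) = 0
    rw [LinearMap.sub_apply, sub_eq_zero, ← h4, coe_sum, LinearMap.sum_apply]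
    rfl
  exact sub_eq_zero.1 (Subtype.ext h6)

theorem leftker_mat [IsDomain R] (ρ : Fin m → SA D) (h : ρ ᵥ* A.map (phi D) = 0) :
    ρ ᵥ* eM D = ρ := by
  funext p
  have h1 : ∀ j, ∑ q, (ρ q : Module.End k (PM D)).comp (Act D (A q j)) = 0 := by
    intro j
    have h2 := congrArg (fun u : SA D => (u : Module.End k (PM D))) (congrFun h j)
    have h3 : (ρ ᵥ* A.map (phi D)) j = ∑ q, ρ q * phi D (A q j) := rfl
    simp only [h3, coe_sum] at h2
    exact h2
  have h4 := leftker D (fun q => (ρ q : Module.End k (PM D))) (fun q => (ρ q).2) h1 p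
  have h5 : (ρ ᵥ* eM D) p = ∑ q, ρ q * eM D q p := rfl
  apply Subtype.ext
  rw [h5, coe_sum]
  exact h4

end Pool.Agent.H410R3.NORE
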