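import Pool.Agent.H410R3.NORE.G4
import Pool.Agent.H354.NORE.Stmts

set_option autoImplicit false

namespace Pool.Agent.H410R3.NORE

theorem taskE1_of (k : Type) [Field k] (h : TaskInst k) : H354P.TaskE1 k := by
  intro R _ _ _ m n A
  obtain ⟨D⟩ := h R m n A
  exact ⟨SA D, inferInstance, inferInstance, SA_domain D, phi D, eM D, phi_inj D, eM_A D,
    leftker_mat D, fun s t B g _ hk y hy => preserve D s t B g hk y hy⟩

end Pool.Agent.H410R3.NORE
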