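import Mathlib
import Pool.Agent.H410R3.NORE.G1

set_option autoImplicit false

/-! Task NORE-E1-Inst (helper703): the data `Dat k R m n A` over a domain `R`. -/

namespace Pool.Agent.H410R3.NORE

namespace Inst

variable (k : Type) [Field k] {R : Type} [Ring R] [Algebra k R] {m n : ℕ}
  (A : Matrix (Fin m) (Fin n) R)

noncomputable def dot : (Fin m → R) →ₗ[k] (Fin m → R) →ₗ[k] R :=
  LinearMap.mk₂ k (fun z y => ∑ q, z q * y q)
    (by intros; simp [add_mul, Finset.sum_add_distrib])
    (by intros; simp [Finset.smul_sum])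
    (by intros; simp [mul_add, Finset.sum_add_distrib])
    (by intros; simp [Finset.smul_sum])

theorem dot_apply (z y : Fin m → R) : dot k z y = ∑ q, z q * y q := rfl

/-- left kernel of `A` -/
noncomputable def Z : Submodule k (Fin m → R) where
  carrier := {z | ∀ j, ∑ q, z q * A q j = 0}
  add_mem' := by
    intro a b ha hb j
    simp only [Pi.add_apply, add_mul, Finset.sum_add_distrib]
    rw [ha j, hb j, add_zero]
  zero_mem' := by intro j; simp
  smul_mem' := by
    intro c a ha j
    simp only [Pi.smul_apply, smul_mul_assoc, ← Finset.smul_sum]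
    rw [ha j, smul_zero]

theorem mem_Z {z : Fin m → R} : z ∈ Z k A ↔ ∀ j, ∑ q, z q * A q j = 0 := Iff.rfl

/-- common right kernel -/
noncomputable def C : Submodule k (Fin m → R) where
  carrier := {y | ∀ z ∈ Z k A, ∑ q, z q * y q = 0}
  add_mem' := by
    intro a b ha hb z hz
    simp only [Pi.add_apply, mul_add, Finset.sum_add_distrib]
    rw [ha z hz, hb z hz, add_zero]
  zero_mem' := by intro z _; simp
  smul_mem' := by
    intro c a ha z hz
    simp only [Pi.smul_apply, mul_smul_comm, ← Finset.smul_sum]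
    rw [ha z hz, smul_zero]

theorem mem_C {y : Fin m → R} : y ∈ C k A ↔ ∀ z ∈ Z k A, ∑ q, z q * y q = 0 := Iff.rfl

theorem col_mem (j : Fin n) : (fun q => A q j) ∈ C k A := fun z hz => hz j

abbrev N : Type := (Fin m → R) ⧸ C k A
abbrev L : Type := (Fin m → R) ⧸ Z k A

noncomputable def rmul (r : R) : (Fin m → R) →ₗ[k] (Fin m → R) where
  toFun y := fun q => y q * r
  map_add' := by intros; funext q; simp [add_mul]
  map_smul' := by intros; funext q; simp

noncomputable def lmul (r : R) : (Fin m → R) →ₗ[k] (Fin m → R) where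
  toFun y := fun q => r * y q
  map_add' := by intros; funext q; simp [mul_add]
  map_smul' := by intros; funext q; simp

theorem rmul_mem (r : R) {y : Fin m → R} (hy : y ∈ C k A) : (fun q => y q * r) ∈ C k A := by
  intro z hz
  simp only [← mul_assoc, ← Finset.sum_mul]
  rw [hy z hz, zero_mul]

theorem lmul_mem (r : R) {z : Fin m → R} (hz : z ∈ Z k A) : (fun q => r * z q) ∈ Z k A := by
  intro j
  simp only [mul_assoc, ← Finset.mul_sum]
  rw [hz j, mul_zero]

noncomputable def nrF (r : R) : N k A →ₗ[k] N k A :=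
  (C k A).mapQ (C k A) (rmul k r) (fun _ hy => rmul_mem k A r hy)

noncomputable def laF (r : R) : L k A →ₗ[k] L k A :=
  (Z k A).mapQ (Z k A) (lmul k r) (fun _ hy => lmul_mem k A r hy)

theorem nrF_mk (r : R) (y : Fin m → R) :
    nrF k A r ((C k A).mkQ y) = (C k A).mkQ (fun q => y q * r) := rfl

theorem laF_mk (r : R) (y : Fin m → R) :
    laF k A r ((Z k A).mkQ y) = (Z k A).mkQ (fun q => r * y q) := rfl

noncomputable def nr : N k A →ₗ[k] R →ₗ[k] N k A :=
  LinearMap.mk₂ k (fun x r => nrF k A r x)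
    (by intros; simp)
    (by intros; simp)
    (by
      intro x r r'
      obtain ⟨y, rfl⟩ := Submodule.mkQ_surjective _ x
      rw [nrF_mk, nrF_mk, nrF_mk, ← map_add]
      congr 1
      funext q
      simp [mul_add])
    (by
      intro c x r
      obtain ⟨y, rfl⟩ := Submodule.mkQ_surjective _ x
      rw [nrF_mk, nrF_mk, ← map_smul]
      congr 1
      funext q
      simp)

noncomputable def la : R →ₗ[k] L k A →ₗ[k] L k A :=
  LinearMap.mk₂ k (fun r x => laF k A r x)
    (by
      intro r r' x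
      obtain ⟨y, rfl⟩ := Submodule.mkQ_surjective _ x
      rw [laF_mk, laF_mk, laF_mk, ← map_add]
      congr 1
      funext q
      simp [add_mul])
    (by
      intro c r x
      obtain ⟨y, rfl⟩ := Submodule.mkQ_surjective _ x
      rw [laF_mk, laF_mk, ← map_smul]
      congr 1
      funext q
      simp)
    (by intros; simp)
    (by intros; simp)

theorem nr_mk (y : Fin m → R) (r : R) :
    nr k A ((C k A).mkQ y) r = (C k A).mkQ (fun q => y q * r) := rfl

theorem la_mk (y : Fin m → R) (r : R) :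
    la k A r ((Z k A).mkQ y) = (Z k A).mkQ (fun q => r * y q) := rfl

theorem nr_mul (x : N k A) (r r' : R) : nr k A x (r * r') = nr k A (nr k A x r) r' := by
  obtain ⟨y, rfl⟩ := Submodule.mkQ_surjective _ x
  rw [nr_mk, nr_mk, nr_mk]
  simp only [mul_assoc]

theorem nr_one (x : N k A) : nr k A x 1 = x := by
  obtain ⟨y, rfl⟩ := Submodule.mkQ_surjective _ x
  rw [nr_mk]
  simp only [mul_one]

theorem la_mul (r r' : R) (x : L k A) : la k A (r * r') x = la k A r (la k A r' x) := by
  obtain ⟨y, rfl⟩ := Submodule.mkQ_surjective _ x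
  rw [la_mk, la_mk, la_mk]
  simp only [mul_assoc]

theorem la_one (x : L k A) : la k A 1 x = x := by
  obtain ⟨y, rfl⟩ := Submodule.mkQ_surjective _ x
  rw [la_mk]
  simp only [one_mul]

/-- evaluation of `z` in the left kernel -/
noncomputable def zb (z : Fin m → R) (hz : z ∈ Z k A) : N k A →ₗ[k] R :=
  (C k A).liftQ (dot k z) (fun y hy => by
    rw [LinearMap.mem_ker, dot_apply]
    exact hy z hz)

theorem zb_mk (z : Fin m → R) (hz : z ∈ Z k A) (y : Fin m → R) :
    zb k A z hz ((C k A).mkQ y) = ∑ q, z q * y q := rfl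

theorem zb_nr (z : Fin m → R) (hz : z ∈ Z k A) (x : N k A) (r : R) :
    zb k A z hz (nr k A x r) = zb k A z hz x * r := by
  obtain ⟨y, rfl⟩ := Submodule.mkQ_surjective _ x
  rw [nr_mk, zb_mk, zb_mk, Finset.sum_mul]
  simp only [mul_assoc]

theorem N_eq_zero {x : N k A} (h : ∀ z (hz : z ∈ Z k A), zb k A z hz x = 0) : x = 0 := by
  obtain ⟨y, rfl⟩ := Submodule.mkQ_surjective _ x
  rw [Submodule.mkQ_apply, Submodule.Quotient.mk_eq_zero]
  intro z hz
  exact h z hz

/-- the submodule `K` -/
noncomputable def K : Submodule k (Fin m → N k A) where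
  carrier := {ν | ∀ y ∈ C k A, ∑ q, nr k A (ν q) (y q) = 0}
  add_mem' := by
    intro a b ha hb y hy
    simp only [Pi.add_apply, map_add, LinearMap.add_apply, Finset.sum_add_distrib]
    rw [ha y hy, hb y hy, add_zero]
  zero_mem' := by intro y hy; simp
  smul_mem' := by
    intro c a ha y hy
    simp only [Pi.smul_apply, map_smul, LinearMap.smul_apply, ← Finset.smul_sum]
    rw [ha y hy, smul_zero]

abbrev V : Type := (Fin m → N k A) ⧸ K k A

theorem pr_mem (x : N k A) {z : Fin m → R} (hz : z ∈ Z k A) :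
    (fun q => nr k A x (z q)) ∈ K k A := by
  intro y hy
  simp only [← nr_mul, ← map_sum]
  rw [hy z hz, map_zero]

noncomputable def prF (x : N k A) : L k A →ₗ[k] V k A :=
  (Z k A).mapQ (K k A) ((nr k A x).compLeft (Fin m)) (fun _ hz => pr_mem k A x hz)

theorem prF_mk (x : N k A) (y : Fin m → R) :
    prF k A x ((Z k A).mkQ y) = (K k A).mkQ (fun q => nr k A x (y q)) := rfl

noncomputable def pr : N k A →ₗ[k] L k A →ₗ[k] V k A :=
  LinearMap.mk₂ k (fun x l => prF k A x l)
    (by
      intro x x' l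
      obtain ⟨y, rfl⟩ := Submodule.mkQ_surjective _ l
      rw [prF_mk, prF_mk, prF_mk, ← map_add]
      congr 1
      funext q
      simp)
    (by
      intro c x l
      obtain ⟨y, rfl⟩ := Submodule.mkQ_surjective _ l
      rw [prF_mk, prF_mk, ← map_smul]
      congr 1
      funext q
      simp)
    (by intros; simp)
    (by intros; simp)

theorem pr_mk (x : N k A) (y : Fin m → R) :
    pr k A x ((Z k A).mkQ y) = (K k A).mkQ (fun q => nr k A x (y q)) := rfl

theorem pr_la (x : N k A) (r : R) (l : L k A) : pr k A x (la k A r l) = pr k A (nr k A x r) l := by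
  obtain ⟨y, rfl⟩ := Submodule.mkQ_surjective _ l
  rw [la_mk, pr_mk, pr_mk]
  simp only [nr_mul]

noncomputable def nq (q : Fin m) : N k A := (C k A).mkQ (Pi.single q 1)
noncomputable def el (q : Fin m) : L k A := (Z k A).mkQ (Pi.single q 1)

theorem sum_nq (y : Fin m → R) : ∑ q, nr k A (nq k A q) (y q) = (C k A).mkQ y := by
  unfold nq
  simp only [nr_mk]
  rw [← map_sum]
  congr 1
  funext p
  rw [Finset.sum_apply]
  simp [Pi.single_apply]

theorem cl_el (ν : Fin m → N k A) : ∑ q, pr k A (ν q) (el k A q) = (K k A).mkQ ν := by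
  unfold el
  simp only [pr_mk]
  rw [← map_sum]
  congr 1
  funext p
  rw [Finset.sum_apply]
  have h1 : ∀ q, nr k A (ν q) ((Pi.single q (1 : R) : Fin m → R) p) = if q = p then ν q else 0 := by
    intro q
    by_cases h : q = p
    · subst h
      rw [Pi.single_eq_same, nr_one, if_pos rfl]
    · rw [Pi.single_eq_of_ne (fun h' => h h'.symm), map_zero, if_neg h]
  simp only [h1]
  rw [Finset.sum_ite_eq' Finset.univ p ν]
  simp

theorem cL_el (ρ : Fin m → R) : ∑ q, la k A (ρ q) (el k A q) = (Z k A).mkQ ρ := by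
  unfold el
  simp only [la_mk]
  rw [← map_sum]
  congr 1
  funext p
  rw [Finset.sum_apply]
  simp [Pi.single_apply]

theorem inj_nr [IsDomain R] (x : N k A) (r : R) (hx : x ≠ 0) (h : nr k A x r = 0) : r = 0 := by
  by_contra hr
  apply hx
  apply N_eq_zero
  intro z hz
  have h1 := zb_nr k A z hz x r
  rw [h, map_zero] at h1
  rcases mul_eq_zero.1 h1.symm with h2 | h2
  · exact h2
  · exact absurd h2 hr

theorem inj_pr [IsDomain R] (x : N k A) (l : L k A) (hx : x ≠ 0) (h : pr k A x l = 0) : l = 0 := by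
  obtain ⟨y, rfl⟩ := Submodule.mkQ_surjective _ l
  rw [pr_mk, Submodule.mkQ_apply, Submodule.Quotient.mk_eq_zero] at h
  rw [Submodule.mkQ_apply, Submodule.Quotient.mk_eq_zero]
  intro j
  have h1 := h _ (col_mem k A j)
  simp only [← nr_mul, ← map_sum] at h1
  exact inj_nr k A x _ hx h1

theorem inj_la [IsDomain R] (r : R) (l : L k A) (hr : r ≠ 0) (h : la k A r l = 0) : l = 0 := by
  obtain ⟨y, rfl⟩ := Submodule.mkQ_surjective _ l
  rw [la_mk, Submodule.mkQ_apply, Submodule.Quotient.mk_eq_zero] at h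
  rw [Submodule.mkQ_apply, Submodule.Quotient.mk_eq_zero]
  intro j
  have h1 := h j
  simp only [mul_assoc, ← Finset.mul_sum] at h1
  rcases mul_eq_zero.1 h1 with h2 | h2
  · exact absurd h2 hr
  · exact h2

noncomputable def lam (j : Fin n) : L k A →ₗ[k] R :=
  (Z k A).liftQ ((dot k).flip (fun q => A q j)) (fun z hz => by
    rw [LinearMap.mem_ker, LinearMap.flip_apply, dot_apply]
    exact hz j)

theorem lam_mk (j : Fin n) (y : Fin m → R) : lam k A j ((Z k A).mkQ y) = ∑ q, y q * A q j := rfl

theorem kerA (ν : Fin m → N k A) (h : ∀ j, ∑ q, nr k A (ν q) (A q j) = 0) :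
    (K k A).mkQ ν = 0 := by
  rw [Submodule.mkQ_apply, Submodule.Quotient.mk_eq_zero]
  intro y hy
  apply N_eq_zero
  intro z hz
  have h1 : (fun q => zb k A z hz (ν q)) ∈ Z k A := by
    intro j
    simp only [← zb_nr, ← map_sum]
    rw [h j, map_zero]
  rw [map_sum]
  simp only [zb_nr]
  exact hy _ h1

theorem endo (ν : Fin m → N k A) (hν : (K k A).mkQ ν = 0) :
    ∃ (g : N k A →ₗ[k] N k A) (gV : V k A →ₗ[k] V k A),
      (∀ q, g (nq k A q) = ν q) ∧ (∀ x r, g (nr k A x r) = nr k A (g x) r) ∧
        ∀ x l, gV (pr k A x l) = pr k A (g x) l := by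
  rw [Submodule.mkQ_apply, Submodule.Quotient.mk_eq_zero] at hν
  let g0 : (Fin m → R) →ₗ[k] N k A := ∑ q, (nr k A (ν q)).comp (LinearMap.proj q)
  have hg0 : ∀ y, g0 y = ∑ q, nr k A (ν q) (y q) := by
    intro y
    simp [g0]
  let g : N k A →ₗ[k] N k A := (C k A).liftQ g0 (fun y hy => by
    rw [LinearMap.mem_ker, hg0]
    exact hν y hy)
  have hg : ∀ y, g ((C k A).mkQ y) = ∑ q, nr k A (ν q) (y q) := fun y => hg0 y
  have hgr : ∀ x r, g (nr k A x r) = nr k A (g x) r := by
    intro x r
    obtain ⟨y, rfl⟩ := Submodule.mkQ_surjective _ x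
    rw [nr_mk, hg, hg, map_sum, LinearMap.sum_apply]
    simp only [nr_mul]
  have hgK : ∀ μ ∈ K k A, (g.compLeft (Fin m)) μ ∈ K k A := by
    intro μ hμ y hy
    have h1 : ∀ q, (g.compLeft (Fin m)) μ q = g (μ q) := fun q => rfl
    simp only [h1, ← hgr, ← map_sum]
    rw [hμ y hy, map_zero]
  let gV : V k A →ₗ[k] V k A := (K k A).mapQ (K k A) (g.compLeft (Fin m)) hgK
  refine ⟨g, gV, ?_, hgr, ?_⟩
  · intro q
    unfold nq
    rw [hg]
    rw [Finset.sum_eq_single q]
    · rw [Pi.single_eq_same, nr_one]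
    · intro p _ hp
      rw [Pi.single_eq_of_ne hp, map_zero]
    · intro h
      exact absurd (Finset.mem_univ q) h
  · intro x l
    obtain ⟨y, rfl⟩ := Submodule.mkQ_surjective _ l
    rw [pr_mk, pr_mk]
    have h1 : ∀ μ, gV ((K k A).mkQ μ) = (K k A).mkQ (fun q => g (μ q)) := fun μ => rfl
    rw [h1]
    simp only [hgr]

theorem zed (z : Fin m → R) (hz' : (Z k A).mkQ z = 0) :
    ∃ (b : N k A →ₗ[k] R) (zV : V k A →ₗ[k] L k A),
      (∀ q, b (nq k A q) = z q) ∧ (∀ x r, b (nr k A x r) = b x * r) ∧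
        ∀ x l, zV (pr k A x l) = la k A (b x) l := by
  rw [Submodule.mkQ_apply, Submodule.Quotient.mk_eq_zero] at hz'
  have hK : ∀ μ ∈ K k A, ((zb k A z hz').compLeft (Fin m)) μ ∈ Z k A := by
    intro μ hμ j
    have h1 : ∀ q, ((zb k A z hz').compLeft (Fin m)) μ q = zb k A z hz' (μ q) := fun q => rfl
    simp only [h1, ← zb_nr, ← map_sum]
    rw [hμ _ (col_mem k A j), map_zero]
  let zV : V k A →ₗ[k] L k A := (K k A).mapQ (Z k A) ((zb k A z hz').compLeft (Fin m)) hK
  refine ⟨zb k A z hz', zV, ?_, zb_nr k A z hz', ?_⟩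
  · intro q
    unfold nq
    rw [zb_mk, Finset.sum_eq_single q]
    · rw [Pi.single_eq_same, mul_one]
    · intro p _ hp
      rw [Pi.single_eq_of_ne hp, mul_zero]
    · intro h
      exact absurd (Finset.mem_univ q) h
  · intro x l
    obtain ⟨y, rfl⟩ := Submodule.mkQ_surjective _ l
    rw [pr_mk, la_mk]
    have h1 : ∀ μ, zV ((K k A).mkQ μ) = (Z k A).mkQ (fun q => zb k A z hz' (μ q)) := fun μ => rfl
    rw [h1]
    simp only [zb_nr]

end Inst

open Inst in
theorem taskInst (k : Type) [Field k] : TaskInst k := by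
  intro R _ _ _ m n A
  obtain ⟨sC, hsC⟩ := (C k A).mkQ.exists_rightInverse_of_surjective (Submodule.range_mkQ _)
  obtain ⟨sV, hsV⟩ := (K k A).mkQ.exists_rightInverse_of_surjective (Submodule.range_mkQ _)
  obtain ⟨sL, hsL⟩ := (Z k A).mkQ.exists_rightInverse_of_surjective (Submodule.range_mkQ _)
  have hC : ∀ x, (C k A).mkQ (sC x) = x := fun x => LinearMap.congr_fun hsC x
  have hV : ∀ x, (K k A).mkQ (sV x) = x := fun x => LinearMap.congr_fun hsV x
  have hL : ∀ x, (Z k A).mkQ (sL x) = x := fun x => LinearMap.congr_fun hsL x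
  let sN : Fin m → N k A →ₗ[k] R := fun q => (LinearMap.proj q).comp sC
  let sq : Fin m → V k A →ₗ[k] L k A := fun q =>
    (Z k A).mkQ.comp (((sN q).compLeft (Fin m)).comp sV)
  have hsN : ∀ x, ∑ q, nr k A (nq k A q) (sN q x) = x := by
    intro x
    have := sum_nq k A (sC x)
    rw [hC] at this
    exact this
  exact ⟨{
    L := L k A
    N := N k A
    V := V k A
    nr := nr k A
    pr := pr k A
    la := la k A
    nq := nq k A
    el := el k A
    sN := sN
    sq := sq
    cl := (K k A).mkQ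
    cL := (Z k A).mkQ
    sV := sV
    sL := sL
    nr_mul := nr_mul k A
    la_mul := la_mul k A
    la_one := la_one k A
    pr_la := pr_la k A
    cl_sV := hV
    cL_sL := hL
    cl_el := cl_el k A
    cL_el := cL_el k A
    nq_sN := hsN
    cl_nq := by
      rw [Submodule.mkQ_apply, Submodule.Quotient.mk_eq_zero]
      intro y hy
      rw [sum_nq, Submodule.mkQ_apply, Submodule.Quotient.mk_eq_zero]
      exact hy
    pr_sq := by
      intro v
      have h1 : ∀ q, pr k A (nq k A q) (sq q v) =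
          (K k A).mkQ (fun p => nr k A (nq k A q) (sN q (sV v p))) := fun q => rfl
      simp only [h1]
      rw [← map_sum]
      conv_rhs => rw [← hV v]
      congr 1
      funext p
      rw [Finset.sum_apply]
      exact hsN _
    endo := endo k A
    zed := zed k A
    inj_nr := inj_nr k A
    inj_pr := inj_pr k A
    inj_la := inj_la k A
    lam := lam k A
    lam_la := by
      intro j r x
      obtain ⟨y, rfl⟩ := Submodule.mkQ_surjective _ x
      rw [la_mk, lam_mk, lam_mk, Finset.mul_sum]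
      simp only [mul_assoc]
    lam_inj := by
      intro x h
      obtain ⟨y, rfl⟩ := Submodule.mkQ_surjective _ x
      rw [Submodule.mkQ_apply, Submodule.Quotient.mk_eq_zero]
      exact fun j => h j
    kerA := kerA k A
    kerAR := by
      intro ρ h
      rw [Submodule.mkQ_apply, Submodule.Quotient.mk_eq_zero]
      exact h
    nqA := by
      intro j
      have := sum_nq k A (fun q => A q j)
      rw [this, Submodule.mkQ_apply, Submodule.Quotient.mk_eq_zero]
      exact col_mem k A j
    }⟩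

end Pool.Agent.H410R3.NORE
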